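import Mathlib
import Pool.Agent.Helper68K9.SG.PowCore

set_option autoImplicit false

/-!
# Large values of Dirichlet polynomials at generic powers of well-spaced points

Let `x_1, …, x_R ∈ [1, N^B]` be a `1`-spaced family of real numbers (for instance `x_j = j`), let
`c_1, …, c_R` be arbitrary real numbers and let `Λ ≥ C N^E`. For all exponents `α ∈ [0, 1]` and all
factors `λ ∈ [-Λ, Λ]` outside a set of relative measure `≤ C N^(-A)`, the points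
`t_j = c_j + λ x_j^α` satisfy the mean value estimate
`∑_j |D(i t_j)|² ≤ C N^ε (N + R) ∑ |a_n|²` for ALL coefficients, hence the bound
`R ≤ C N^(2+ε) / V²` of the problem in the full range `V² ≥ C N^(1+ε)`. Only two real parameters are
used, whatever `ε`, `A` and `B` are.
-/

namespace Pool.Agent.Results.MP_a93a41_nt.GenericExponents

open Finset MeasureTheory Pool.Agent.Helper68K9

/-- `D(it) = ∑_{n ≤ N} a_n n^{-it}` -/
noncomputable def D (N : ℕ) (a : ℕ → ℂ) (t : ℝ) : ℂ :=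
  ∑ n ∈ Icc 1 N, a n * (n : ℂ) ^ (-((t : ℂ) * Complex.I))

/-- the points `t_j = c_j + Λ θ x_j^α`, where `p = (θ, α)` -/
noncomputable def points {R : ℕ} (c x : Fin R → ℝ) (Λ : ℝ) (p : ℝ × ℝ) (j : Fin R) : ℝ :=
  c j + Λ * p.1 * x j ^ p.2

/-- The bounds for the family `t` of `R` real numbers with the loss `L`:
the mean value estimate `∑_j |D(i t_j)|² ≤ L (N + R) ∑ |a_n|²` for ALL coefficients; and for
ALL `|a_n| ≤ 1` and ALL `V > 0`:
if `|D(i t_j)| ≥ V` for all `j` and `V² ≥ 2 L N`, then `R ≤ 2 L N² / V²`;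
if `R ≤ N` and `|D(i t_j)| ≥ V` for all `j ∈ W`, then `|W| ≤ 2 L N² / V²`. -/
def Bounds (N : ℕ) (L : ℝ) {R : ℕ} (t : Fin R → ℝ) : Prop :=
  (∀ a : ℕ → ℂ, ∑ j, ‖D N a (t j)‖ ^ 2 ≤ L * (N + R) * ∑ n ∈ Icc 1 N, ‖a n‖ ^ 2) ∧
  ∀ (a : ℕ → ℂ) (V : ℝ), (∀ n ∈ Icc 1 N, ‖a n‖ ≤ 1) → 0 < V →
    ((∀ j, V ≤ ‖D N a (t j)‖) → 2 * L * N ≤ V ^ 2 → (R : ℝ) ≤ 2 * L * N ^ 2 / V ^ 2) ∧
    ∀ W : Finset (Fin R), R ≤ N → (∀ j ∈ W, V ≤ ‖D N a (t j)‖) → (W.card : ℝ) ≤ 2 * L * N ^ 2 / V ^ 2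

theorem bounds_of (N : ℕ) (L : ℝ) (hL : 0 ≤ L) {R : ℕ} (t : Fin R → ℝ)
    (h : SG.MV N (L * (N + R)) t) : Bounds N L t := by
  have hD : ∀ (a : ℕ → ℂ) (j : Fin R), D N a (t j) = ∑ n ∈ Icc 1 N, a n * SG.ph (t j) n := by
    intro a j
    unfold D
    refine sum_congr rfl fun n hn => ?_
    rw [SG.cpow_ph n (mem_Icc.1 hn).1]
  have hMV : ∀ a : ℕ → ℂ, ∑ j, ‖D N a (t j)‖ ^ 2 ≤ L * (N + R) * ∑ n ∈ Icc 1 N, ‖a n‖ ^ 2 := by
    intro a
    simp only [hD]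
    exact h a
  refine ⟨hMV, fun a V ha hV => ?_⟩
  have hR0 : (0 : ℝ) ≤ R := Nat.cast_nonneg _
  have hN0 : (0 : ℝ) ≤ N := Nat.cast_nonneg _
  have hsum : ∑ n ∈ Icc 1 N, ‖a n‖ ^ 2 ≤ N := by
    refine (sum_le_sum (g := fun _ => (1 : ℝ)) fun n hn => ?_).trans (by simp)
    exact pow_le_one₀ (norm_nonneg _) (ha n hn)
  have hX0 : 0 ≤ (N : ℝ) + R := by positivity
  have hW : ∀ W : Finset (Fin R), (∀ j ∈ W, V ≤ ‖D N a (t j)‖) → (W.card : ℝ) * V ^ 2 ≤ L * (N + R) * N := by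
    intro W hW
    calc (W.card : ℝ) * V ^ 2 = ∑ j ∈ W, V ^ 2 := by rw [sum_const, nsmul_eq_mul]
      _ ≤ ∑ j ∈ W, ‖D N a (t j)‖ ^ 2 := sum_le_sum fun j hj => pow_le_pow_left₀ hV.le (hW j hj) 2
      _ ≤ ∑ j, ‖D N a (t j)‖ ^ 2 := sum_le_sum_of_subset_of_nonneg (subset_univ _) fun _ _ _ => by positivity
      _ ≤ L * (N + R) * ∑ n ∈ Icc 1 N, ‖a n‖ ^ 2 := hMV a
      _ ≤ L * (N + R) * N := mul_le_mul_of_nonneg_left hsum (mul_nonneg hL hX0)
  refine ⟨fun hall hV2 => ?_, fun W hRN hWl => ?_⟩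
  · have h1 := hW univ fun j _ => hall j
    rw [card_univ, Fintype.card_fin] at h1
    rw [le_div_iff₀ (by positivity)]
    have h2 : (R : ℝ) * (L * N) ≤ R * (V ^ 2 / 2) := mul_le_mul_of_nonneg_left (by linarith) hR0
    nlinarith
  · have h1 := hW W hWl
    rw [le_div_iff₀ (by positivity)]
    have hRN' : (R : ℝ) ≤ N := by exact_mod_cast hRN
    calc (W.card : ℝ) * V ^ 2 ≤ L * (N + R) * N := h1
      _ ≤ L * (N + N) * N := by gcongr
      _ = 2 * L * N ^ 2 := by ring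

/-- `1`-spaced points in `[1, X]` -/
theorem card_spaced {R : ℕ} (x : Fin R → ℝ) (X : ℝ) (hx : ∀ j, 1 ≤ x j ∧ x j ≤ X)
    (hsep : ∀ i j, i ≠ j → 1 ≤ |x i - x j|) (hX : 0 ≤ X) : (R : ℝ) ≤ X := by
  have h1 : (univ : Finset (Fin R)).card ≤ (Icc 1 ⌊X⌋₊).card := by
    refine card_le_card_of_injOn (fun j => ⌊x j⌋₊) (fun j _ => ?_) fun i _ j _ hij => ?_
    · rw [mem_coe, mem_Icc]
      exact ⟨Nat.le_floor (by exact_mod_cast (hx j).1), Nat.floor_le_floor (hx j).2⟩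
    · by_contra hne
      have h2 := hsep i j hne
      have hi := (hx i).1
      have hj := (hx j).1
      have a1 := Nat.floor_le (show 0 ≤ x i by linarith)
      have a2 := Nat.lt_floor_add_one (x i)
      have b1 := Nat.floor_le (show 0 ≤ x j by linarith)
      have b2 := Nat.lt_floor_add_one (x j)
      have hij' : (⌊x i⌋₊ : ℝ) = ⌊x j⌋₊ := by exact_mod_cast hij
      have h3 : |x i - x j| < 1 := by
        rw [abs_lt]
        constructor <;> linarith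
      linarith
  rw [card_univ, Fintype.card_fin, Nat.card_Icc, Nat.add_sub_cancel] at h1
  calc (R : ℝ) ≤ (⌊X⌋₊ : ℝ) := by exact_mod_cast h1
    _ ≤ X := Nat.floor_le hX

/-- the logarithms are separated -/
theorem log_sep (X u v : ℝ) (hu : 1 ≤ u ∧ u ≤ X) (hv : 1 ≤ v ∧ v ≤ X) (h : 1 ≤ |u - v|) :
    1 / X ≤ |Real.log u - Real.log v| := by
  have key : ∀ u v : ℝ, 1 ≤ u → u ≤ X → 1 ≤ v → 1 ≤ u - v → 1 / X ≤ Real.log u - Real.log v := by
    intro u v hu huX hv huv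
    have hu0 : 0 < u := by linarith
    have hv0 : 0 < v := by linarith
    have h4 : 1 - v / u ≤ Real.log u - Real.log v := by
      rw [← Real.log_div hu0.ne' hv0.ne']
      have := Real.one_sub_inv_le_log_of_pos (div_pos hu0 hv0)
      rwa [inv_div] at this
    have h5 : 1 / X ≤ 1 - v / u := by
      have h6 : 1 - v / u = (u - v) / u := by field_simp
      rw [h6]
      exact div_le_div₀ (by linarith) huv hu0 huX
    linarith
  rcases le_total v u with hvu | hvu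
  · rw [abs_of_nonneg (by linarith)] at h
    exact (key u v hu.1 hu.2 hv.1 h).trans (le_abs_self _)
  · rw [abs_sub_comm, abs_of_nonneg (by linarith)] at h
    rw [abs_sub_comm]
    exact (key v u hv.1 hv.2 hu.1 h).trans (le_abs_self _)

/-- **Main theorem.** -/
theorem result (ε A B : ℝ) (hε : 0 < ε) (hB : 0 ≤ B) :
    ∃ E C : ℝ, 0 < C ∧ ∀ (N R : ℕ) (Λ : ℝ) (c x : Fin R → ℝ), 1 ≤ N →
      (∀ j, 1 ≤ x j ∧ x j ≤ (N : ℝ) ^ B) → (∀ i j, i ≠ j → 1 ≤ |x i - x j|) → C * (N : ℝ) ^ E ≤ Λ →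
      volume {p : ℝ × ℝ | |p.1| ≤ 1 ∧ 0 ≤ p.2 ∧ p.2 ≤ 1 ∧ ¬ Bounds N (C * (N : ℝ) ^ ε) (points c x Λ p)} ≤
        ENNReal.ofReal (C * (N : ℝ) ^ (-A)) := by
  obtain ⟨E, C, hC, h⟩ := SG.two_params ε A B hε hB
  refine ⟨E, C, hC, fun N R Λ c x hN hx hsep hΛ => ?_⟩
  have hN1 : (1 : ℝ) ≤ N := by exact_mod_cast hN
  have hX1 : (1 : ℝ) ≤ (N : ℝ) ^ B := Real.one_le_rpow hN1 hB
  have hR : (Fintype.card (Fin R) : ℝ) ≤ (N : ℝ) ^ B := by
    rw [Fintype.card_fin]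
    exact card_spaced x _ hx hsep (by positivity)
  obtain ⟨S, h1, h2⟩ := h (Fin R) N Λ c (fun j => Real.log (x j)) ((N : ℝ) ^ B) hN hR hX1 le_rfl
    (fun i => ⟨Real.log_nonneg (hx i).1, Real.log_le_log (by linarith [(hx i).1]) (hx i).2⟩)
    (fun i j hij => log_sep _ _ _ (hx i) (hx j) (hsep i j hij)) hΛ
  refine (measure_mono fun p hp => ?_).trans h2
  refine ⟨?_, ⟨(abs_le.1 hp.1).1, (abs_le.1 hp.1).2⟩, hp.2.1, hp.2.2.1⟩
  by_contra hcon
  apply hp.2.2.2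
  have h3 := h1 p hcon
  rw [Fintype.card_fin] at h3
  refine bounds_of N _ (by positivity) _ ?_
  have e : points c x Λ p = SG.pP c (fun j => Real.log (x j)) Λ p := by
    funext j
    unfold points SG.pP
    rw [Real.rpow_def_of_pos (by linarith [(hx j).1])]
  rw [e]
  exact h3

end Pool.Agent.Results.MP_a93a41_nt.GenericExponents
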