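import Mathlib
import Pool.Agent.Helper68K9.SG.KWc

set_option autoImplicit false

/-!
# Large values of Dirichlet polynomials: limited independence suffices

Let `u : Ω → {0, …, T-1}^R` be a finite family of `R`-tuples which is uniform and `k`-wise
independent, `k ≥ 4 (A + 1) / ε` (for example the values of the polynomials of degree `< k` modulo a
prime `T` at `R` distinct residues, a family with only `T^k` members), `R ≤ N^B`, and let `c_1, …, c_R` be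
arbitrary real numbers. For all members of the family but a proportion `≤ C N^(-A)`, the points
`t_j = c_j + u_j` satisfy the mean value estimate
`∑_j |D(i t_j)|² ≤ C N^ε (N + R + R N / T) ∑ |a_n|²` for ALL coefficients, hence for `T ≥ R` the bound
`R ≤ C N^(2+ε) / V²` of the problem in the full range `V² ≥ C N^(1+ε)`.
-/

namespace Pool.Agent.Results.MP_a93a41_nt.LimitedIndependence

open Finset Pool.Agent.Helper68K9

/-- `D(it) = ∑_{n ≤ N} a_n n^{-it}` -/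
noncomputable def D (N : ℕ) (a : ℕ → ℂ) (t : ℝ) : ℂ :=
  ∑ n ∈ Icc 1 N, a n * (n : ℂ) ^ (-((t : ℂ) * Complex.I))

/-- The family `u` of `R`-tuples of elements of `{0, …, T-1}` is uniform and `k`-wise independent: for every
set `V` of at most `k` places, all `T^|V|` possible values on `V` are taken by the same number of members. -/
def Independent {Ω : Type} [Fintype Ω] {R T : ℕ} (k : ℕ) (u : Ω → Fin R → Fin T) : Prop :=
  ∀ (V : Finset (Fin R)) (v : Fin R → Fin T), V.card ≤ k →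
    Nat.card {ω : Ω // ∀ j ∈ V, u ω j = v j} * T ^ V.card = Fintype.card Ω

/-- the points `t_j = c_j + u_j` -/
def points {R T : ℕ} (c : Fin R → ℝ) (u : Fin R → Fin T) (j : Fin R) : ℝ := c j + ((u j : ℕ) : ℝ)

/-- The bounds for the family `t` of `R` real numbers with the loss `L` at the scale `τ`:
the mean value estimate `∑_j |D(i t_j)|² ≤ L (N + R + R N / τ) ∑ |a_n|²` for ALL coefficients; and for
`R ≤ τ`, ALL `|a_n| ≤ 1` and ALL `V > 0`:
if `|D(i t_j)| ≥ V` for all `j` and `V² ≥ 2 L N`, then `R ≤ 4 L N² / V²`;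
if `R ≤ N` and `|D(i t_j)| ≥ V` for all `j ∈ W`, then `|W| ≤ 3 L N² / V²`. -/
def Bounds (N : ℕ) (L τ : ℝ) {R : ℕ} (t : Fin R → ℝ) : Prop :=
  (∀ a : ℕ → ℂ, ∑ j, ‖D N a (t j)‖ ^ 2 ≤ L * (N + R + R * N / τ) * ∑ n ∈ Icc 1 N, ‖a n‖ ^ 2) ∧
  ∀ (a : ℕ → ℂ) (V : ℝ), (R : ℝ) ≤ τ → (∀ n ∈ Icc 1 N, ‖a n‖ ≤ 1) → 0 < V →
    ((∀ j, V ≤ ‖D N a (t j)‖) → 2 * L * N ≤ V ^ 2 → (R : ℝ) ≤ 4 * L * N ^ 2 / V ^ 2) ∧
    ∀ W : Finset (Fin R), R ≤ N → (∀ j ∈ W, V ≤ ‖D N a (t j)‖) → (W.card : ℝ) ≤ 3 * L * N ^ 2 / V ^ 2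

theorem bounds_of (N : ℕ) (L τ : ℝ) (hL : 0 ≤ L) (hτ : 0 < τ) {R : ℕ} (t : Fin R → ℝ)
    (h : SG.MV N (L * (N + R + R * N / τ)) t) : Bounds N L τ t := by
  have hD : ∀ (a : ℕ → ℂ) (j : Fin R), D N a (t j) = ∑ n ∈ Icc 1 N, a n * SG.ph (t j) n := by
    intro a j
    unfold D
    refine sum_congr rfl fun n hn => ?_
    rw [SG.cpow_ph n (mem_Icc.1 hn).1]
  have hMV : ∀ a : ℕ → ℂ, ∑ j, ‖D N a (t j)‖ ^ 2 ≤
      L * (N + R + R * N / τ) * ∑ n ∈ Icc 1 N, ‖a n‖ ^ 2 := by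
    intro a
    simp only [hD]
    exact h a
  refine ⟨hMV, fun a V hRτ ha hV => ?_⟩
  have hR0 : (0 : ℝ) ≤ R := Nat.cast_nonneg _
  have hN0 : (0 : ℝ) ≤ N := Nat.cast_nonneg _
  have hsum : ∑ n ∈ Icc 1 N, ‖a n‖ ^ 2 ≤ N := by
    refine (sum_le_sum (g := fun _ => (1 : ℝ)) fun n hn => ?_).trans (by simp)
    exact pow_le_one₀ (norm_nonneg _) (ha n hn)
  have hτ1 : (R : ℝ) * N / τ ≤ N := by
    rw [div_le_iff₀ hτ, mul_comm]
    exact mul_le_mul_of_nonneg_left hRτ hN0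
  have hX0 : 0 ≤ (N : ℝ) + R + R * N / τ := by positivity
  have hW : ∀ W : Finset (Fin R), (∀ j ∈ W, V ≤ ‖D N a (t j)‖) → (W.card : ℝ) * V ^ 2 ≤ L * (N + R + N) * N := by
    intro W hW
    calc (W.card : ℝ) * V ^ 2 = ∑ j ∈ W, V ^ 2 := by rw [sum_const, nsmul_eq_mul]
      _ ≤ ∑ j ∈ W, ‖D N a (t j)‖ ^ 2 := sum_le_sum fun j hj => pow_le_pow_left₀ hV.le (hW j hj) 2
      _ ≤ ∑ j, ‖D N a (t j)‖ ^ 2 := sum_le_sum_of_subset_of_nonneg (subset_univ _) fun _ _ _ => by positivity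
      _ ≤ L * (N + R + R * N / τ) * ∑ n ∈ Icc 1 N, ‖a n‖ ^ 2 := hMV a
      _ ≤ L * (N + R + R * N / τ) * N := mul_le_mul_of_nonneg_left hsum (mul_nonneg hL hX0)
      _ ≤ L * (N + R + N) * N := by gcongr
  refine ⟨fun hall hV2 => ?_, fun W hRN hWl => ?_⟩
  · have h1 := hW univ fun j _ => hall j
    rw [card_univ, Fintype.card_fin] at h1
    rw [le_div_iff₀ (by positivity)]
    have h2 : (R : ℝ) * (L * N) ≤ R * (V ^ 2 / 2) := mul_le_mul_of_nonneg_left (by linarith) hR0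
    nlinarith
  · have h1 := hW W hWl
    rw [le_div_iff₀ (by positivity)]
    have hRN' : (R : ℝ) ≤ N := by exact_mod_cast hRN
    calc (W.card : ℝ) * V ^ 2 ≤ L * (N + R + N) * N := h1
      _ ≤ L * (N + N + N) * N := by gcongr
      _ = 3 * L * N ^ 2 := by ring

/-- **Main theorem.** -/
theorem result (ε A B : ℝ) (k : ℕ) (hε : 0 < ε) (hB : 0 ≤ B) (hk : 4 * (A + 1) / ε ≤ k) (hk2 : 2 ≤ k) :
    ∃ C : ℝ, 0 < C ∧ ∀ (Ω : Type) [Fintype Ω] (N R T : ℕ) (c : Fin R → ℝ) (u : Ω → Fin R → Fin T),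
      1 ≤ N → 1 ≤ T → (R : ℝ) ≤ (N : ℝ) ^ B → Independent k u →
      (Nat.card {ω : Ω // ¬ Bounds N (C * (N : ℝ) ^ ε) T (points c (u ω))} : ℝ) ≤
        C * (N : ℝ) ^ (-A) * Fintype.card Ω := by
  classical
  obtain ⟨C, hC, h⟩ := SG.kwise_main ε A B k hε hB hk hk2
  refine ⟨C, hC, fun Ω _ N R T c u hN hT hR hu => ?_⟩
  obtain ⟨S, h1, h2⟩ := h Ω (Fin R) N T c u hN hT (by rwa [Fintype.card_fin]) hu
  refine le_trans ?_ h2
  rw [Nat.card_eq_fintype_card, Fintype.card_subtype]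
  have h3 : (univ.filter fun ω : Ω => ¬ Bounds N (C * (N : ℝ) ^ ε) T (points c (u ω))) ⊆ S := by
    intro ω hω
    rw [mem_filter] at hω
    by_contra hcon
    apply hω.2
    have h4 := h1 ω hcon
    rw [Fintype.card_fin] at h4
    have hT0 : (0 : ℝ) < T := by exact_mod_cast hT
    exact bounds_of N _ T (by positivity) hT0 _ h4
  exact_mod_cast card_le_card h3

end Pool.Agent.Results.MP_a93a41_nt.LimitedIndependence
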