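import Mathlib
import Pool.Agent.Helper68K9.SG.Poly

set_option autoImplicit false

/-!
# Large values of Dirichlet polynomials at generic polynomial images of well-spaced points

Let `x_1, …, x_R ∈ [-X, X]` be a `1`-spaced family of real numbers, `R ≤ N^B`, let `c_1, …, c_R` be
arbitrary real numbers and let `k ≥ 4 (A + 1) / ε`. For all polynomials `P = ∑_{e=1}^{k} p_e T^e` with
coefficients `|p_e| ≤ σ_e`, where `σ_e ≥ τ (1 + X)^(k-e)`, outside a set of relative measure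
`≤ C N^(-A)`, the points `t_j = c_j + P(x_j)` satisfy the mean value estimate
`∑_j |D(i t_j)|² ≤ C N^ε (N + R + R N / τ) ∑ |a_n|²` for ALL coefficients. If `τ ≥ R` this gives the
bound `R ≤ C N^(2+ε) / V²` of the problem in the full range `V² ≥ C N^(1+ε)`.
-/

namespace Pool.Agent.Results.MP_a93a41_nt.PolynomialImages

open Finset MeasureTheory Pool.Agent.Helper68K9

/-- `D(it) = ∑_{n ≤ N} a_n n^{-it}` -/
noncomputable def D (N : ℕ) (a : ℕ → ℂ) (t : ℝ) : ℂ :=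
  ∑ n ∈ Icc 1 N, a n * (n : ℂ) ^ (-((t : ℂ) * Complex.I))

/-- the points `t_j = c_j + P(x_j)`, where `P(T) = ∑_{l < k} σ_l θ_l T^(l+1)` -/
noncomputable def points {R k : ℕ} (c x : Fin R → ℝ) (σ θ : Fin k → ℝ) (j : Fin R) : ℝ :=
  c j + ∑ l : Fin k, σ l * θ l * x j ^ ((l : ℕ) + 1)

/-- The bounds for the family `t` of `R` real numbers with the loss `L` at the scale `τ`:
the mean value estimate `∑_j |D(i t_j)|² ≤ L (N + R + R N / τ) ∑ |a_n|²` for ALL coefficients; and for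
`R ≤ τ`, ALL `|a_n| ≤ 1` and ALL `V > 0`:
if `|D(i t_j)| ≥ V` for all `j` and `V² ≥ 2 L N`, then `R ≤ 4 L N² / V²`;
if `R ≤ N` and `|D(i t_j)| ≥ V` for all `j ∈ W`, then `|W| ≤ 3 L N² / V²`. -/
def Bounds (N : ℕ) (L τ : ℝ) {R : ℕ} (t : Fin R → ℝ) : Prop :=
  (∀ a : ℕ → ℂ, ∑ j, ‖D N a (t j)‖ ^ 2 ≤ L * (N + R + R * N / τ) * ∑ n ∈ Icc 1 N, ‖a n‖ ^ 2) ∧
  ∀ (a : ℕ → ℂ) (V : ℝ), (R : ℝ) ≤ τ → (∀ n ∈ Icc 1 N, ‖a n‖ ≤ 1) → 0 < V →
    ((∀ j, V ≤ ‖D N a (t j)‖) → 2 * L * N ≤ V ^ 2 → (R : ℝ) ≤ 4 * L * N ^ 2 / V ^ 2) ∧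
    ∀ W : Finset (Fin R), R ≤ N → (∀ j ∈ W, V ≤ ‖D N a (t j)‖) → (W.card : ℝ) ≤ 3 * L * N ^ 2 / V ^ 2

theorem bounds_of (N : ℕ) (L τ : ℝ) (hL : 0 ≤ L) (hτ : 0 < τ) {R : ℕ} (t : Fin R → ℝ)
    (h : SG.MV N (L * (N + R + R * N / τ)) t) : Bounds N L τ t := by
  have hD : ∀ (a : ℕ → ℂ) (j : Fin R), D N a (t j) = ∑ n ∈ Icc 1 N, a n * SG.ph (t j) n := by
    intro a j
    unfold D
    refine sum_congr rfl fun n hn => ?_
    rw [SG.cpow_ph n (mem_Icc.1 hn).1]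
  have hMV : ∀ a : ℕ → ℂ, ∑ j, ‖D N a (t j)‖ ^ 2 ≤
      L * (N + R + R * N / τ) * ∑ n ∈ Icc 1 N, ‖a n‖ ^ 2 := by
    intro a
    simp only [hD]
    exact h a
  refine ⟨hMV, fun a V hRτ ha hV => ?_⟩
  have hR0 : (0 : ℝ) ≤ R := Nat.cast_nonneg _
  have hN0 : (0 : ℝ) ≤ N := Nat.cast_nonneg _
  have hsum : ∑ n ∈ Icc 1 N, ‖a n‖ ^ 2 ≤ N := by
    refine (sum_le_sum (g := fun _ => (1 : ℝ)) fun n hn => ?_).trans (by simp)
    exact pow_le_one₀ (norm_nonneg _) (ha n hn)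
  have hτ1 : (R : ℝ) * N / τ ≤ N := by
    rw [div_le_iff₀ hτ, mul_comm]
    exact mul_le_mul_of_nonneg_left hRτ hN0
  have hX0 : 0 ≤ (N : ℝ) + R + R * N / τ := by positivity
  have hW : ∀ W : Finset (Fin R), (∀ j ∈ W, V ≤ ‖D N a (t j)‖) → (W.card : ℝ) * V ^ 2 ≤ L * (N + R + N) * N := by
    intro W hW
    calc (W.card : ℝ) * V ^ 2 = ∑ j ∈ W, V ^ 2 := by rw [sum_const, nsmul_eq_mul]
      _ ≤ ∑ j ∈ W, ‖D N a (t j)‖ ^ 2 := sum_le_sum fun j hj => pow_le_pow_left₀ hV.le (hW j hj) 2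
      _ ≤ ∑ j, ‖D N a (t j)‖ ^ 2 := sum_le_sum_of_subset_of_nonneg (subset_univ _) fun _ _ _ => by positivity
      _ ≤ L * (N + R + R * N / τ) * ∑ n ∈ Icc 1 N, ‖a n‖ ^ 2 := hMV a
      _ ≤ L * (N + R + R * N / τ) * N := mul_le_mul_of_nonneg_left hsum (mul_nonneg hL hX0)
      _ ≤ L * (N + R + N) * N := by gcongr
  refine ⟨fun hall hV2 => ?_, fun W hRN hWl => ?_⟩
  · have h1 := hW univ fun j _ => hall j
    rw [card_univ, Fintype.card_fin] at h1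
    rw [le_div_iff₀ (by positivity)]
    have h2 : (R : ℝ) * (L * N) ≤ R * (V ^ 2 / 2) := mul_le_mul_of_nonneg_left (by linarith) hR0
    nlinarith
  · have h1 := hW W hWl
    rw [le_div_iff₀ (by positivity)]
    have hRN' : (R : ℝ) ≤ N := by exact_mod_cast hRN
    calc (W.card : ℝ) * V ^ 2 ≤ L * (N + R + N) * N := h1
      _ ≤ L * (N + N + N) * N := by gcongr
      _ = 3 * L * N ^ 2 := by ring

/-- **Main theorem.** -/
theorem result (ε A B : ℝ) (k : ℕ) (hε : 0 < ε) (hA : 0 ≤ A) (hB : 0 ≤ B) (hk : 4 * (A + 1) / ε ≤ k) :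
    ∃ C : ℝ, 0 < C ∧ ∀ (N R : ℕ) (X τ : ℝ) (c x : Fin R → ℝ) (σ : Fin k → ℝ),
      1 ≤ N → (R : ℝ) ≤ (N : ℝ) ^ B → 0 ≤ X → 0 < τ →
      (∀ j, |x j| ≤ X) → (∀ i j, i ≠ j → 1 ≤ |x i - x j|) →
      (∀ l : Fin k, τ * (1 + X) ^ (k - 1 - (l : ℕ)) ≤ σ l) →
      volume {θ : Fin k → ℝ | (∀ l, |θ l| ≤ 1) ∧ ¬ Bounds N (C * (N : ℝ) ^ ε) τ (points c x σ θ)} ≤
        ENNReal.ofReal (C * (N : ℝ) ^ (-A)) := by
  obtain ⟨C, hC, h⟩ := SG.poly_images ε A B k hε hA hB hk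
  refine ⟨5 ^ k * C, by positivity, fun N R X τ c x σ hN hR hX hτ hx hsep hσ => ?_⟩
  obtain ⟨S, h1, _, h3⟩ := h (Fin R) N X τ c x σ hN (by rwa [Fintype.card_fin]) hX hτ hx hsep hσ
  have hsub : ∀ θ : Fin k → ℝ, ¬ Bounds N (5 ^ k * C * (N : ℝ) ^ ε) τ (points c x σ θ) → θ ∈ S := by
    intro θ hθ
    by_contra hcon
    apply hθ
    have h4 := h1 θ hcon
    rw [Fintype.card_fin] at h4
    refine bounds_of N _ τ (by positivity) hτ _ ?_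
    intro b
    have h5 := h4 b
    have e : ∀ j, points c x σ θ j = c j + ∑ l : Fin k, θ l * (σ l * x j ^ ((l : ℕ) + 1)) := by
      intro j
      unfold points
      congr 1
      exact sum_congr rfl fun l _ => by ring
    simp only [e]
    refine h5.trans ?_
    refine mul_le_mul_of_nonneg_right ?_ (sum_nonneg fun _ _ => by positivity)
    have h6 : (0 : ℝ) ≤ N + R + R * N / τ := by positivity
    have h7 : (1 : ℝ) ≤ 5 ^ k := one_le_pow₀ (by norm_num)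
    calc C * (N : ℝ) ^ ε * (N + R + R * N / τ) = 1 * (C * (N : ℝ) ^ ε * (N + R + R * N / τ)) := (one_mul _).symm
      _ ≤ 5 ^ k * (C * (N : ℝ) ^ ε * (N + R + R * N / τ)) := mul_le_mul_of_nonneg_right h7 (by positivity)
      _ = _ := by ring
  have h5 : (5 : ENNReal) ^ k * ENNReal.ofReal (C * (N : ℝ) ^ (-A)) =
      ENNReal.ofReal (5 ^ k * C * (N : ℝ) ^ (-A)) := by
    have e5 : (5 : ENNReal) = ENNReal.ofReal 5 := by norm_num
    rw [mul_assoc (5 ^ k : ℝ), ENNReal.ofReal_mul (p := 5 ^ k) (by positivity), ENNReal.ofReal_pow (by norm_num), ← e5]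
  rw [← h5]
  refine (measure_mono fun θ hθ => ?_).trans h3
  refine ⟨hsub θ hθ.2, ?_, ?_⟩
  · intro l
    exact (abs_le.1 (hθ.1 l)).1
  · intro l
    exact (abs_le.1 (hθ.1 l)).2

end Pool.Agent.Results.MP_a93a41_nt.PolynomialImages
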