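import Mathlib
import Pool.Agent.Helper68K9.SG.Core

set_option autoImplicit false

/-!
# Large values of Dirichlet polynomials at generic structured perturbations of arbitrary points

Let `c_1, …, c_R` be arbitrary real numbers, `R ≤ N^B`, and let `s_1, …, s_R` be arbitrary distinct
vectors of `ℤ^m` with small entries (`≤ N^η`, `η = η(ε, A, B) > 0`; no other hypothesis: they may
form a box, a subset of a box, the unit vectors, …). For the points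
`t_j = c_j + ∑_l σ_l θ_l s_{j,l}` with scales `σ_l ≥ τ`, the mean value estimate
`∑_j |D(i t_j)|² ≤ C N^ε (N + R + R N / τ) ∑ |a_n|²` holds for ALL coefficients, for all parameters
`θ ∈ ℝ^m` outside a set of Gaussian measure `≤ C N^(-A)`, whose part in the cube `[-1,1]^m` has
Lebesgue measure `≤ 5^m C N^(-A)`. If `τ ≥ R` this gives the bound `R ≤ C N^(2+ε) / V²` of the problem
in the full range `V² ≥ C N^(1+ε)`.
-/

namespace Pool.Agent.Results.MP_a93a41_nt.StructuredPerturbations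

open Finset MeasureTheory ProbabilityTheory Pool.Agent.Helper68K9

/-- `D(it) = ∑_{n ≤ N} a_n n^{-it}` -/
noncomputable def D (N : ℕ) (a : ℕ → ℂ) (t : ℝ) : ℂ :=
  ∑ n ∈ Icc 1 N, a n * (n : ℂ) ^ (-((t : ℂ) * Complex.I))

/-- the points `t_j = c_j + ∑_l σ_l θ_l s_{j,l}` -/
noncomputable def points {R m : ℕ} (c : Fin R → ℝ) (s : Fin R → Fin m → ℤ) (σ θ : Fin m → ℝ) (j : Fin R) : ℝ :=
  c j + ∑ l, σ l * θ l * s j l

/-- the standard Gaussian measure of `ℝ^m` -/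
noncomputable def gauss (m : ℕ) : Measure (Fin m → ℝ) := Measure.pi fun _ => gaussianReal 0 1

/-- The bounds for the family `t` of `R` real numbers with the loss `L` at the scale `τ`:
the mean value estimate `∑_j |D(i t_j)|² ≤ L (N + R + R N / τ) ∑ |a_n|²` for ALL coefficients; and for
`R ≤ τ`, ALL `|a_n| ≤ 1` and ALL `V > 0`:
if `|D(i t_j)| ≥ V` for all `j` and `V² ≥ 2 L N`, then `R ≤ 4 L N² / V²`;
if `R ≤ N` and `|D(i t_j)| ≥ V` for all `j ∈ W`, then `|W| ≤ 3 L N² / V²`. -/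
def Bounds (N : ℕ) (L τ : ℝ) {R : ℕ} (t : Fin R → ℝ) : Prop :=
  (∀ a : ℕ → ℂ, ∑ j, ‖D N a (t j)‖ ^ 2 ≤ L * (N + R + R * N / τ) * ∑ n ∈ Icc 1 N, ‖a n‖ ^ 2) ∧
  ∀ (a : ℕ → ℂ) (V : ℝ), (R : ℝ) ≤ τ → (∀ n ∈ Icc 1 N, ‖a n‖ ≤ 1) → 0 < V →
    ((∀ j, V ≤ ‖D N a (t j)‖) → 2 * L * N ≤ V ^ 2 → (R : ℝ) ≤ 4 * L * N ^ 2 / V ^ 2) ∧
    ∀ W : Finset (Fin R), R ≤ N → (∀ j ∈ W, V ≤ ‖D N a (t j)‖) → (W.card : ℝ) ≤ 3 * L * N ^ 2 / V ^ 2

theorem bounds_of (N : ℕ) (L τ : ℝ) (hL : 0 ≤ L) (hτ : 0 < τ) {R : ℕ} (t : Fin R → ℝ)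
    (h : SG.MV N (L * (N + R + R * N / τ)) t) : Bounds N L τ t := by
  have hD : ∀ (a : ℕ → ℂ) (j : Fin R), D N a (t j) = ∑ n ∈ Icc 1 N, a n * SG.ph (t j) n := by
    intro a j
    unfold D
    refine sum_congr rfl fun n hn => ?_
    rw [SG.cpow_ph n (mem_Icc.1 hn).1]
  have hMV : ∀ a : ℕ → ℂ, ∑ j, ‖D N a (t j)‖ ^ 2 ≤
      L * (N + R + R * N / τ) * ∑ n ∈ Icc 1 N, ‖a n‖ ^ 2 := by
    intro a
    simp only [hD]
    exact h a
  refine ⟨hMV, fun a V hRτ ha hV => ?_⟩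
  have hR0 : (0 : ℝ) ≤ R := Nat.cast_nonneg _
  have hN0 : (0 : ℝ) ≤ N := Nat.cast_nonneg _
  have hsum : ∑ n ∈ Icc 1 N, ‖a n‖ ^ 2 ≤ N := by
    refine (sum_le_sum (g := fun _ => (1 : ℝ)) fun n hn => ?_).trans (by simp)
    exact pow_le_one₀ (norm_nonneg _) (ha n hn)
  have hτ1 : (R : ℝ) * N / τ ≤ N := by
    rw [div_le_iff₀ hτ, mul_comm]
    exact mul_le_mul_of_nonneg_left hRτ hN0
  have hX0 : 0 ≤ (N : ℝ) + R + R * N / τ := by positivity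
  have hW : ∀ W : Finset (Fin R), (∀ j ∈ W, V ≤ ‖D N a (t j)‖) → (W.card : ℝ) * V ^ 2 ≤ L * (N + R + N) * N := by
    intro W hW
    calc (W.card : ℝ) * V ^ 2 = ∑ j ∈ W, V ^ 2 := by rw [sum_const, nsmul_eq_mul]
      _ ≤ ∑ j ∈ W, ‖D N a (t j)‖ ^ 2 := sum_le_sum fun j hj => pow_le_pow_left₀ hV.le (hW j hj) 2
      _ ≤ ∑ j, ‖D N a (t j)‖ ^ 2 := sum_le_sum_of_subset_of_nonneg (subset_univ _) fun _ _ _ => by positivity
      _ ≤ L * (N + R + R * N / τ) * ∑ n ∈ Icc 1 N, ‖a n‖ ^ 2 := hMV a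
      _ ≤ L * (N + R + R * N / τ) * N := mul_le_mul_of_nonneg_left hsum (mul_nonneg hL hX0)
      _ ≤ L * (N + R + N) * N := by gcongr
  refine ⟨fun hall hV2 => ?_, fun W hRN hWl => ?_⟩
  · have h1 := hW univ fun j _ => hall j
    rw [card_univ, Fintype.card_fin] at h1
    rw [le_div_iff₀ (by positivity)]
    have h2 : (R : ℝ) * (L * N) ≤ R * (V ^ 2 / 2) := mul_le_mul_of_nonneg_left (by linarith) hR0
    nlinarith
  · have h1 := hW W hWl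
    rw [le_div_iff₀ (by positivity)]
    have hRN' : (R : ℝ) ≤ N := by exact_mod_cast hRN
    calc (W.card : ℝ) * V ^ 2 ≤ L * (N + R + N) * N := h1
      _ ≤ L * (N + N + N) * N := by gcongr
      _ = 3 * L * N ^ 2 := by ring

/-- **Main theorem.** -/
theorem result (ε A B : ℝ) (hε : 0 < ε) (hA : 0 ≤ A) (hB : 0 ≤ B) :
    ∃ η C : ℝ, 0 < η ∧ 0 < C ∧ ∀ (N R m : ℕ) (τ : ℝ) (c : Fin R → ℝ) (s : Fin R → Fin m → ℤ) (σ : Fin m → ℝ),
      1 ≤ N → (R : ℝ) ≤ (N : ℝ) ^ B → 0 < τ → (∀ l, τ ≤ σ l) →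
      Function.Injective s → (∀ j l, |(s j l : ℝ)| ≤ (N : ℝ) ^ η) →
      gauss m {θ | ¬ Bounds N (C * (N : ℝ) ^ ε) τ (points c s σ θ)} ≤ ENNReal.ofReal (C * (N : ℝ) ^ (-A)) ∧
      volume {θ : Fin m → ℝ | (∀ l, |θ l| ≤ 1) ∧ ¬ Bounds N (C * (N : ℝ) ^ ε) τ (points c s σ θ)} ≤
        5 ^ m * ENNReal.ofReal (C * (N : ℝ) ^ (-A)) := by
  obtain ⟨η, C, hη, hC, h⟩ := SG.small_box ε A B hε hB
  refine ⟨η, C, hη, hC, fun N R m τ c s σ hN hR hτ hσ hinj hs => ?_⟩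
  obtain ⟨S, h1, h2, h3⟩ := h (Fin R) (Fin m) N τ c s σ hN (by rwa [Fintype.card_fin]) hτ hσ hinj hs
  rw [Fintype.card_fin] at h3
  have hsub : ∀ θ : Fin m → ℝ, ¬ Bounds N (C * (N : ℝ) ^ ε) τ (points c s σ θ) → θ ∈ S := by
    intro θ hθ
    by_contra hcon
    apply hθ
    have h4 := h1 θ hcon
    rw [Fintype.card_fin] at h4
    exact bounds_of N _ τ (by positivity) hτ _ h4
  refine ⟨(measure_mono fun θ hθ => hsub θ hθ).trans h2, (measure_mono fun θ hθ => ?_).trans h3⟩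
  refine ⟨hsub θ hθ.2, ?_, ?_⟩
  · intro l
    exact (abs_le.1 (hθ.1 l)).1
  · intro l
    exact (abs_le.1 (hθ.1 l)).2

end Pool.Agent.Results.MP_a93a41_nt.StructuredPerturbations
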